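import Pool.Agent.helper24.CG.Spec

set_option autoImplicit false

namespace Pool.Agent.helper24.CG

open Finset

theorem LL_pos_h18 (N m q J n0 : ℕ) : (0 : ℝ) < (LL N m q J n0 : ℝ) := by
  have : 0 < LL N m q J n0 := by
    unfold LL
    positivity
  exact_mod_cast this

theorem DD_pos_h18 (N q p : ℕ) (c L : ℝ) (β : ℕ) (hN : 1 ≤ N) (hc : 0 < c) (hL : 0 < L) :
    0 < DD N q p c L β := by
  unfold DD
  have hN' : (0 : ℝ) < N := by exact_mod_cast hN
  positivity

theorem log_DD_h18 (N q p : ℕ) (c L : ℝ) (β : ℕ) (hN : 1 ≤ N) (hc : 0 < c) (hL : 0 < L) :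
    Real.log (DD N q p c L β) = Real.log (2 * c * ((q : ℝ) + 1)) +
      (((q - β : ℕ) : ℝ) + (β : ℝ) / (p : ℝ)) * Real.log N + Real.log L + 2 * Real.log N := by
  have hN' : (0 : ℝ) < N := by exact_mod_cast hN
  unfold DD
  rw [Real.log_mul (by positivity) (by positivity), Real.log_mul (by positivity) (by positivity),
    Real.log_mul (by positivity) (by positivity), Real.log_rpow hN', Real.log_pow]
  push_cast
  ring

theorem COR (hIND : IND_stmt) (hBIR : BIR_stmt) (hINI : INI_stmt) (hN0B : N0B_stmt)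
    (hMUL : MUL_stmt) : COR_stmt := by
  intro N m b q p J hN hm hq hp hJ hwin
  have hN' : (0 : ℝ) < N := by exact_mod_cast hN
  have hN1 : (1 : ℝ) ≤ N := by exact_mod_cast hN
  have hp' : (0 : ℝ) < p := by exact_mod_cast hp
  set L : ℝ := (LL N m q J (nn N m b q p) : ℝ) with hLdef
  have hL : 0 < L := LL_pos_h18 _ _ _ _ _
  have hL1 : 1 ≤ L := by
    have : 1 ≤ LL N m q J (nn N m b q p) := by
      have h := LL_pos_h18 N m q J (nn N m b q p)
      exact_mod_cast h
    rw [hLdef]; exact_mod_cast this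
  have hc : (0 : ℝ) < 2 * b + 3 := by positivity
  have hMUL' := hMUL (Finset (Fin N)) b m
  obtain ⟨-, hg1, -, -⟩ := hMUL'
  obtain ⟨hP0, hP2, hPK⟩ := hINI N q p hN
  let R : List (ES N) → Finset (Fin N) → Set ℝ := fun H K =>
    {r | ∃ B ⊆ K, Closed J K H B ∧ (H = [] → B = ∅) ∧
      r = gain b m (rest K B) H / DD N q p (2 * b + 3) L B.card}
  have h := hIND N m b q (Psi0 N q p) R hN hm hP0 hP2 ?_ ?_ ?_ hwin
  · obtain ⟨H, K, hH, hK, hcov, hspl⟩ := h
    refine ⟨H, K, hH, hK, hcov, ?_⟩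
    intro H₂ H₁ hHH
    obtain ⟨r, ⟨B, hBK, hBcl, hB0, hr⟩, hr2⟩ := hspl H₂ H₁ hHH
    refine ⟨B, hBK, hBcl, hB0, ?_⟩
    have hD := DD_pos_h18 N q p (2 * b + 3) L B.card hN hc hL
    have hG1 : (0 : ℝ) < gain b m (rest K B) H₁ := lt_of_lt_of_le one_pos (hg1 _ _)
    have hG2 : (0 : ℝ) < gain b m (ed K) H₂ := lt_of_lt_of_le one_pos (hg1 _ _)
    have hmul : gain b m (rest K B) H₁ * gain b m (ed K) H₂ ≤
        (2 * b + 3) * DD N q p (2 * b + 3) L B.card := by
      rw [hr, div_mul_eq_mul_div, div_le_iff₀ hD] at hr2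
      exact hr2
    have hlog := Real.log_le_log (mul_pos hG1 hG2) hmul
    rw [Real.log_mul hG1.ne' hG2.ne', Real.log_mul hc.ne' hD.ne',
      log_DD_h18 N q p (2 * b + 3) L B.card hN hc hL] at hlog
    have hBq : B.card ≤ q := hK ▸ card_le_card hBK
    have hcast : (((q - B.card : ℕ) : ℝ)) = (q : ℝ) - B.card := by
      rw [Nat.cast_sub hBq]
    rw [hcast] at hlog
    have hlogN : 0 ≤ Real.log N := Real.log_nonneg hN1
    have hfrac : (B.card : ℝ) / p * Real.log N ≤ (q : ℝ) * Real.log N / p := by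
      rw [div_mul_eq_mul_div]
      apply div_le_div_of_nonneg_right _ hp'.le
      apply mul_le_mul_of_nonneg_right _ hlogN
      exact_mod_cast hBq
    unfold RR
    rw [← hLdef]
    have e : ((q : ℝ) - B.card + (B.card : ℝ) / p) * Real.log N =
        ((q : ℝ) - B.card) * Real.log N + (B.card : ℝ) / p * Real.log N := by ring
    rw [e] at hlog
    linarith
  · rintro H K r ⟨B, hBK, hBcl, hB0, rfl⟩
    have hD := DD_pos_h18 N q p (2 * b + 3) L B.card hN hc hL
    exact div_nonneg (le_trans zero_le_one (hg1 _ _)) hD.le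
  · intro K hK
    refine ⟨gain b m (rest K ∅) ([] : List (ES N)) / DD N q p (2 * b + 3) L (∅ : Finset (Fin N)).card,
      ⟨∅, empty_subset _, ?_, fun _ => rfl, rfl⟩, ?_⟩
    · intro E hE
      exact absurd hE (List.not_mem_nil)
    · refine le_trans ?_ (hPK K hK)
      have hgain : gain b m (rest K ∅) ([] : List (ES N)) = 1 := by
        unfold gain; simp
      rw [hgain, one_div]
      apply inv_anti₀ (by positivity)
      unfold DD
      have e : (((q - (∅ : Finset (Fin N)).card : ℕ) : ℝ) +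
          (((∅ : Finset (Fin N)).card : ℕ) : ℝ) / (p : ℝ)) = ((q : ℕ) : ℝ) := by
        simp
      rw [e, Real.rpow_natCast]
      have h1 : (1 : ℝ) ≤ 2 * (2 * b + 3) * ((q : ℝ) + 1) := by
        have hb0 : (0 : ℝ) ≤ b := by positivity
        have hq0 : (0 : ℝ) ≤ q := by positivity
        nlinarith [mul_nonneg hb0 hq0]
      have h2 : (1 : ℝ) ≤ L * (N : ℝ) ^ 2 := by
        have : (1 : ℝ) ≤ (N : ℝ) ^ 2 := one_le_pow₀ hN1
        nlinarith
      have h3 : (0 : ℝ) < (N : ℝ) ^ q := by positivity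
      calc (N : ℝ) ^ q = 1 * (N : ℝ) ^ q * 1 := by ring
        _ ≤ 2 * (2 * b + 3) * ((q : ℝ) + 1) * (N : ℝ) ^ q * (L * (N : ℝ) ^ 2) := by
          apply mul_le_mul
          · exact mul_le_mul_of_nonneg_right h1 h3.le
          · exact h2
          · exact zero_le_one
          · positivity
        _ = _ := by ring
  · intro H Bk Ψ hH hne hΨ0 hΨ hdis
    have hc1 : (1 : ℝ) ≤ 2 * b + 3 := by
      have hb0 : (0 : ℝ) ≤ b := by positivity
      linarith
    obtain ⟨β, hβ0, hβ1, hβ2⟩ := hBIR N m b q p J (nn N m b q p) (2 * b + 3) H Bk Ψ hN hm hq hp hJ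
      hc1 (hN0B N m b q p hN hm hq hp) hH hΨ0 hΨ hdis
    refine ⟨β, hβ0, hβ1, ?_⟩
    intro K hK hdK
    obtain ⟨B, hBK, hBcl, hle⟩ := hβ2 K hK hdK
    exact ⟨_, ⟨B, hBK, hBcl, fun h => absurd h hne, rfl⟩, hle⟩

end Pool.Agent.helper24.CG
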