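import Pool.Agent.helper48.CG.Spec

/-!
# cg:HG: elementary facts on `hgt`
-/

set_option autoImplicit false

namespace Pool.Agent.helper48.CG

open Equiv Finset Function Pool.Agent.helper48.PP

theorem HG_anti {b q : ℕ} (y : Perm (Fin b)) (v : Perm (Fin q)) {c c' r r' : ℕ}
    (hc : c ≤ c') (hr : r ≤ r') (h : Yge y v c' r') : Yge y v c r := by
  obtain ⟨g, hg, h2⟩ := h
  exact ⟨g, hg, fun s => ⟨hc.trans (h2 s).1, hr.trans (h2 s).2⟩⟩

theorem HG_lt {b q : ℕ} (y : Perm (Fin (b + 1))) (v : Perm (Fin q)) {c r : ℕ}
    (h : Yge y v c r) : r < q ∧ c < q := by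
  obtain ⟨g, _, h2⟩ := h
  exact ⟨(h2 0).2.trans_lt (v (g 0)).2, (h2 0).1.trans_lt (g 0).2⟩

theorem HG_iff {b q : ℕ} (y : Perm (Fin (b + 1))) (v : Perm (Fin q)) (c r : ℕ) :
    Yge y v c r ↔ r < hgt y v c := by
  classical
  constructor
  · intro h
    have hsub : Finset.range (r + 1) ⊆ (Finset.range q).filter fun r => Yge y v c r := by
      intro s hs
      rw [Finset.mem_range] at hs
      rw [Finset.mem_filter, Finset.mem_range]
      exact ⟨by have := (HG_lt y v h).1; omega, HG_anti y v le_rfl (by omega) h⟩
    have h1 := Finset.card_le_card hsub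
    rw [Finset.card_range] at h1
    have h2 : hgt y v c = ((Finset.range q).filter fun r => Yge y v c r).card := by
      unfold hgt
      congr
    omega
  · intro h
    by_contra hn
    have hsub : ((Finset.range q).filter fun r => Yge y v c r) ⊆ Finset.range r := by
      intro s hs
      rw [Finset.mem_filter, Finset.mem_range] at hs
      rw [Finset.mem_range]
      by_contra hs'
      exact hn (HG_anti y v le_rfl (by omega) hs.2)
    have h1 := Finset.card_le_card hsub
    rw [Finset.card_range] at h1
    have h2 : hgt y v c = ((Finset.range q).filter fun r => Yge y v c r).card := by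
      unfold hgt
      congr
    omega

/-- **HG.** -/
theorem HG : HG_stmt := by
  intro b q y v
  refine ⟨HG_iff y v, ?_, ?_, ?_, ?_, ?_⟩
  · intro c c' hc
    by_contra hn
    have h1 : hgt y v c < hgt y v c' := by omega
    have h2 := (HG_iff y v c' (hgt y v c)).2 h1
    have h3 := (HG_iff y v c (hgt y v c)).1 (HG_anti y v hc le_rfl h2)
    omega
  · intro c hc
    by_contra hn
    have h1 := (HG_iff y v c 0).2 (by omega)
    have h2 := (HG_lt y v h1).2
    omega
  · intro c
    by_contra hn
    have h1 := (HG_iff y v c q).2 (by omega)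
    have h2 := (HG_lt y v h1).1
    omega
  · intro hav u
    by_contra hn
    have h1 := (HG_iff y v ((u : ℕ) + 1) (v u : ℕ)).2 (by omega)
    obtain ⟨g, hg, h2⟩ := h1
    apply hav
    have hone : IsCopy (v : Fin q → Fin q) (1 : Perm (Fin 1)) (fun _ => u) := by
      refine ⟨?_, ?_⟩
      · intro s t hst
        exfalso
        have := Subsingleton.elim s t
        subst this
        exact lt_irrefl _ hst
      · intro s t
        have := Subsingleton.elim s t
        subst this
        simp
    refine ⟨_, isCopy_append hone hg ?_⟩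
    intro s t
    have h3 : u < g t := by
      rw [Fin.lt_def]
      have := (h2 t).1
      omega
    refine ⟨h3, ?_⟩
    have h4 := (h2 t).2
    have h5 : v u ≠ v (g t) := fun h => absurd (v.injective h) h3.ne
    exact lt_of_le_of_ne (Fin.le_def.2 h4) h5
  · intro n
    unfold avCount avs
    rfl

end Pool.Agent.helper48.CG
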